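import Mathlib
import Pool.Agent.P8H51.EA.Stm3

/-!
# Project EB (row MP_2a5a28_nt): few digits to an arbitrary base of `ℚ(√5)`; statements of three packages
-/

set_option autoImplicit false

namespace Pool.Agent.P8H51.EB

open NumberField Pool.Agent.H458.Sp Pool.Agent.P8H51.EA

/-- hyperbolic: each conjugate of `θ` has absolute value between `t` and `T`, or at most `1 / t` -/
def Hyp2 {K : Type} [Field K] (θ : 𝓞 K) (t T : ℝ) : Prop :=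
  θ ≠ 0 ∧ ∀ φ : K →+* ℂ, (t ≤ ‖em φ θ‖ ∧ ‖em φ θ‖ ≤ T) ∨ ‖em φ θ‖ ≤ t⁻¹

/-- **Package LOT2**: `S_LOT` with `Hyp2` in place of `Hyp`. Same proof as `Pool.Agent.P8H71.EA.lot`: where `‖φ θ‖ ≥ t` use
`t ^ g ≤ ‖φ θ‖ ^ g` in the top bound, where `‖φ θ‖ ≤ 1 / t` use `‖φ θ‖ ^ g ≤ t ^ (- g)` in the bottom bound. -/
def S_LOT2 : Prop :=
  ∀ (K : Type) [Field K] [NumberField K] (θ : 𝓞 K) (t T : ℝ) (Q : Polynomial (𝓞 K)) (R : ℝ) (g : ℕ), 1 < t →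
    Hyp2 θ t T → Gappy R g Q → Q.coeff 0 ≠ 0 → 2 * R ^ (Module.finrank ℚ K) ≤ t ^ g →
    (∏ φ : K →+* ℂ, max 1 ‖em φ θ‖) ^ Q.natDegree ≤
      2 ^ (Module.finrank ℚ K) * R ^ (Module.finrank ℚ K * Module.finrank ℚ K) *
        |(Algebra.norm ℤ (Q.eval θ) : ℝ)|

/-- **Package CUT2**: `S_CUT` with `Hyp2` in place of `Hyp`. Same proof as `Pool.Agent.P8H71.EA.cut`: where `‖φ θ‖ ≥ t` the low sum is
at most `S ‖φ θ‖ ^ E`, so `‖φ y‖ t ^ L ≤ ‖φ y‖ ‖φ θ‖ ^ L ≤ S`; where `‖φ θ‖ ≤ 1 / t` one has `‖φ y‖ ≤ S`; there is an embedding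
of the first kind as the norm of `θ ≠ 0` is at least `1`. -/
def S_CUT2 : Prop :=
  ∀ (K : Type) [Field K] [NumberField K] (ι : Type) [DecidableEq ι] (θ : 𝓞 K) (t T : ℝ) (L : ℕ), 1 < t → Hyp2 θ t T →
    ∀ (low high : Finset ι) (g : ι → 𝓞 K) (e : ι → ℕ), Disjoint low high →
    (∑ i ∈ low ∪ high, hs (g i)) ^ (Module.finrank ℚ K) < t ^ L → ∀ E : ℕ,
    (∀ i ∈ low, e i ≤ E) → (∀ i ∈ high, E + L ≤ e i) →
    ∑ i ∈ low, θ ^ (e i) * g i + ∑ i ∈ high, θ ^ (e i) * g i = 0 →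
    ∑ i ∈ low, θ ^ (e i) * g i = 0

/-- **Package SPR** (60 lines, Mathlib only). Every integer `β ≠ 0, 1, -1` of `ℚ(√5)` is hyperbolic. Proof: all embeddings `φ` of `K`
in `ℂ` are real: `φ` and its complex conjugate agree at `u` (`φ u` is a real root of `X ^ 2 - X - 1`), so on an intermediate
field which contains `u ∉ ℚ`, and it is `K` as the degree `2` is prime (`IntermediateField.isSimpleOrder_of_finrank_prime`). So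
`‖φ β‖ = 1` would give `φ β = ± 1`, `β = ± 1`. There are finitely many `φ`; take `t > 1` with `t ≤ ‖φ β‖` or `t ≤ ‖φ β‖⁻¹` for
all `φ`, and then `ν` with `‖φ β‖ ≤ t ^ ν` for all `φ`. -/
def S_SPR : Prop :=
  ∀ (K : Type) [Field K] [NumberField K] (_ : Module.finrank ℚ K = 2) (u : 𝓞 K) (_ : u ^ 2 = u + 1)
    (β : 𝓞 K), β ≠ 0 → β ≠ 1 → β ≠ -1 →
    ∃ (t : ℝ) (ν : ℕ), 1 < t ∧ 1 ≤ ν ∧
      ∀ φ : K →+* ℂ, (t ≤ ‖φ (β : K)‖ ∧ ‖φ (β : K)‖ ≤ t ^ ν) ∨ ‖φ (β : K)‖ ≤ t⁻¹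

end Pool.Agent.P8H51.EB
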