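import Mathlib
import Pool.Agent.P8H51.EB.Stm

/-!
# Vanishing sums to a hyperbolic base split along gaps

Adapted from `Pool/Agent/P8H51/EA/ClosedT.lean`, itself adapted from `Pool/Agent/H458/Sp/Cluster.lean`.
-/

set_option autoImplicit false

namespace Pool.Agent.P8H51.EB

open Finset NumberField Pool.Agent.H458.Sp Pool.Agent.P8H51.EA

variable {K : Type} [Field K] [NumberField K]

/-- in a vanishing sum, a subset closed under having exponents at distance less than `L` vanishes -/
theorem closed2 (hcut : S_CUT2) {ι : Type} [DecidableEq ι] (θ : 𝓞 K) (t U : ℝ) (ht : 1 < t)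
    (hθ : Hyp2 θ t U) (L : ℕ) (hL : 1 ≤ L)
    (g : ι → 𝓞 K) (e : ι → ℕ) : ∀ (N : ℕ) (S T : Finset ι), S.card ≤ N → T ⊆ S →
    ((∑ i ∈ S, hs (g i)) ^ (Module.finrank ℚ K) < t ^ L) →
    (∀ i ∈ T, ∀ j ∈ S, (e i < e j + L ∧ e j < e i + L) → j ∈ T) →
    ∑ i ∈ S, θ ^ (e i) * g i = 0 → ∑ i ∈ T, θ ^ (e i) * g i = 0 := by
  intro N
  induction N with
  | zero =>
    intro S T hS hT _ _ _
    have : S = ∅ := Finset.card_eq_zero.1 (by omega)
    subst this
    rw [Finset.subset_empty.1 hT]
    simp
  | succ N ih =>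
    -- first the case with an element of `T` below an element of `S \ T`
    have key : ∀ (S T : Finset ι), S.card ≤ N + 1 → T ⊆ S →
        ((∑ i ∈ S, hs (g i)) ^ (Module.finrank ℚ K) < t ^ L) →
        (∀ i ∈ T, ∀ j ∈ S, (e i < e j + L ∧ e j < e i + L) → j ∈ T) →
        ∑ i ∈ S, θ ^ (e i) * g i = 0 →
        (∃ i ∈ T, ∃ j ∈ S \ T, e i ≤ e j) → ∑ i ∈ T, θ ^ (e i) * g i = 0 := by
      intro S T hcard hTS hS hcl hsum ⟨i0, hi0, j0, hj0, hij⟩
      -- the largest element of `T` below `e j0`
      have hne1 : (T.filter (fun i => e i ≤ e j0)).Nonempty := ⟨i0, by simp [hi0, hij]⟩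
      obtain ⟨i1, hi1, hmax⟩ := Finset.exists_max_image _ e hne1
      rw [Finset.mem_filter] at hi1
      have hne2 : ((S \ T).filter (fun j => e i1 ≤ e j)).Nonempty := ⟨j0, by
        rw [Finset.mem_filter]; exact ⟨hj0, hi1.2⟩⟩
      obtain ⟨j1, hj1, hmin⟩ := Finset.exists_min_image _ e hne2
      rw [Finset.mem_filter] at hj1
      have hj1S : j1 ∈ S := (Finset.mem_sdiff.1 hj1.1).1
      have hj1T : j1 ∉ T := (Finset.mem_sdiff.1 hj1.1).2
      have hj1j0 : e j1 ≤ e j0 := hmin j0 (by rw [Finset.mem_filter]; exact ⟨hj0, hi1.2⟩)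
      -- the gap
      have hgap : e i1 + L ≤ e j1 := by
        by_contra hcon
        push Not at hcon
        apply hj1T
        refine hcl i1 hi1.1 j1 hj1S ⟨?_, hcon⟩
        have h3 := hj1.2
        omega
      set low := S.filter (fun i => e i ≤ e i1) with hlow
      set high := S.filter (fun i => ¬ e i ≤ e i1) with hhigh
      have hhighE : ∀ i ∈ high, e i1 + L ≤ e i := by
        intro i hi
        rw [hhigh, Finset.mem_filter] at hi
        obtain ⟨hiS, hi2⟩ := hi
        push Not at hi2
        by_cases hiT : i ∈ T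
        · -- then `e i > e j0`
          have : ¬ e i ≤ e j0 := by
            intro h
            have := hmax i (by rw [Finset.mem_filter]; exact ⟨hiT, h⟩)
            omega
          omega
        · have := hmin i (by
            rw [Finset.mem_filter, Finset.mem_sdiff]; exact ⟨⟨hiS, hiT⟩, by omega⟩)
          omega
      have hsplit : ∑ i ∈ low, θ ^ (e i) * g i +
          ∑ i ∈ high, θ ^ (e i) * g i = 0 := by
        rw [hlow, hhigh, Finset.sum_filter_add_sum_filter_not]
        exact hsum
      have hSlow : (∑ i ∈ low, hs (g i)) ^ (Module.finrank ℚ K) < t ^ L :=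
        lt_of_le_of_lt (pow_le_pow_left₀ (Finset.sum_nonneg fun i _ => hs_nonneg _)
          (Finset.sum_le_sum_of_subset_of_nonneg (Finset.filter_subset _ _)
          (fun i _ _ => hs_nonneg _)) _) hS
      have hShigh : (∑ i ∈ high, hs (g i)) ^ (Module.finrank ℚ K) < t ^ L :=
        lt_of_le_of_lt (pow_le_pow_left₀ (Finset.sum_nonneg fun i _ => hs_nonneg _)
          (Finset.sum_le_sum_of_subset_of_nonneg (Finset.filter_subset _ _)
          (fun i _ _ => hs_nonneg _)) _) hS
      have hlow0 : ∑ i ∈ low, θ ^ (e i) * g i = 0 :=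
        hcut K ι θ t U L ht hθ low high g e (by
            rw [hlow, hhigh]
            exact Finset.disjoint_filter_filter_not _ _ _) (by
            rw [hlow, hhigh, Finset.filter_union_filter_not_eq]
            exact hS) (e i1)
          (fun i hi => (Finset.mem_filter.1 hi).2) hhighE hsplit
      have hhigh0 : ∑ i ∈ high, θ ^ (e i) * g i = 0 := by
        rw [hlow0, zero_add] at hsplit
        exact hsplit
      have hcardS : low.card + high.card = S.card := by
        rw [hlow, hhigh]
        exact Finset.card_filter_add_card_filter_not _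
      have hlow1 : 1 ≤ low.card := Finset.card_pos.2 ⟨i1, by
        rw [hlow, Finset.mem_filter]; exact ⟨hTS hi1.1, le_rfl⟩⟩
      have hhigh1 : 1 ≤ high.card := Finset.card_pos.2 ⟨j1, by
        rw [hhigh, Finset.mem_filter]; exact ⟨hj1S, by omega⟩⟩
      have hT1 : ∑ i ∈ T.filter (fun i => e i ≤ e i1), θ ^ (e i) * g i = 0 := by
        refine ih low _ (by omega) (Finset.filter_subset_filter _ hTS) hSlow ?_ hlow0
        intro i hi j hj hr
        rw [Finset.mem_filter] at hi
        rw [hlow, Finset.mem_filter] at hj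
        rw [Finset.mem_filter]
        exact ⟨hcl i hi.1 j hj.1 hr, hj.2⟩
      have hT2 : ∑ i ∈ T.filter (fun i => ¬ e i ≤ e i1), θ ^ (e i) * g i = 0 := by
        refine ih high _ (by omega) (Finset.filter_subset_filter _ hTS) hShigh ?_ hhigh0
        intro i hi j hj hr
        rw [Finset.mem_filter] at hi
        rw [hhigh, Finset.mem_filter] at hj
        rw [Finset.mem_filter]
        exact ⟨hcl i hi.1 j hj.1 hr, hj.2⟩
      rw [← Finset.sum_filter_add_sum_filter_not T (fun i => e i ≤ e i1), hT1, hT2, add_zero]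
    intro S T hcard hTS hS hcl hsum
    rcases T.eq_empty_or_nonempty with hT | ⟨i0, hi0⟩
    · rw [hT]; simp
    rcases (S \ T).eq_empty_or_nonempty with hST | ⟨j0, hj0⟩
    · have : T = S := Finset.Subset.antisymm hTS (Finset.sdiff_eq_empty_iff_subset.1 hST)
      rw [this]; exact hsum
    rcases le_total (e i0) (e j0) with h | h
    · exact key S T hcard hTS hS hcl hsum ⟨i0, hi0, j0, hj0, h⟩
    · have h1 : ∑ i ∈ S \ T, θ ^ (e i) * g i = 0 := by
        refine key S (S \ T) hcard Finset.sdiff_subset hS ?_ hsum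
          ⟨j0, hj0, i0, ?_, h⟩
        · intro i hi j hj hr
          rw [Finset.mem_sdiff] at hi ⊢
          refine ⟨hj, fun hjT => hi.2 (hcl j hjT i hi.1 ⟨hr.2, hr.1⟩)⟩
        · rw [Finset.sdiff_sdiff_eq_self hTS]
          exact hi0
      have h2 := Finset.sum_sdiff hTS (f := fun i => θ ^ (e i) * g i)
      rw [h1, zero_add] at h2
      rw [h2]
      exact hsum

end Pool.Agent.P8H51.EB
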