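import Mathlib
import Pool.Agent.P8H51.EB.Bound
import Pool.Agent.P8H51.EA.Final

/-!
# Hyperbolic bases: from digits with common exponents to arbitrary digits

Adapted from `Pool/Agent/P8H51/EA/FinalU.lean`.
-/

set_option autoImplicit false

namespace Pool.Agent.P8H51.EB

open Finset NumberField Pool.Agent.H458.Sp Pool.Agent.P8H51.EA

theorem final (hLOT : S_LOT2) (hCUT : S_CUT2) (hGCT : S_GCTQ) (hMASN : S_MASN) (K : Type) [Field K]
    [NumberField K] (N p r D : ℕ) (M : ℝ)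
    (hN : 3 ≤ N) (hp : p ≤ D * (r + N)) (u : 𝓞 K) (t : ℝ) (ν : ℕ) (hν : 1 ≤ ν) (ht : 1 < t)
    (hyp : Hyp2 u t (t ^ ν))
    (q : ℕ) (hq : 0 < q) (τ : Fin p → Fin N) (e : Fin p → ℕ)
    (hD : ∀ σ, ∑ i with τ i = σ, e i < D)
    (c : Fin p → Fin r → 𝓞 K) (a : Fin r → ℕ) (hc : ∀ i j (φ : K →+* ℂ), ‖φ (c i j)‖ ≤ M)
    (x : Fin p → 𝓞 K) (hx : ∀ i, x i = ∑ j, c i j * u ^ (a j))
    (hx0 : ∀ i, x i ≠ 0)
    (cw : Fin N → 𝓞 K) (aw : Fin N → ℕ) (hcw : ∀ σ (φ : K →+* ℂ), ‖φ (cw σ)‖ ≤ M)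
    (w : Fin N → 𝓞 K) (hw : ∀ σ, w σ = cw σ * u ^ (aw σ))
    (A : Fin N → 𝓞 K) (hA : ∀ σ, A σ = w σ * ∏ i with τ i = σ, x i ^ e i)
    (hsum : ∑ σ, A σ = 0)
    (hsub : ∀ s : Finset (Fin N), s.Nonempty → s ≠ Finset.univ → ∑ σ ∈ s, A σ ≠ 0)
    (hgcd : (q : 𝓞 K) ∈ Ideal.span (Set.range A)) :
    Real.log (∏ φ : K →+* ℂ, (⨆ σ, ‖em φ (A σ)‖)) ≤
      ((N - 1) * (N - 2) / 2 * max 1 (N - 3) : ℕ) *
        Real.log |(Algebra.norm ℤ (∏ i, x i) : ℝ)| +
      (96 * (D * Module.finrank ℚ K * (r + N : ℕ) * (ν * (1 + Real.log (q * M))))) ^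
        (2 * (r + N) ^ 3) := by
  classical
  have hA0 : ∀ σ, A σ ≠ 0 := by
    intro σ
    have h3 := hsub {σ} (Finset.singleton_nonempty σ) (by
      intro h4
      have h5 := congrArg Finset.card h4
      rw [Finset.card_singleton, Finset.card_univ, Fintype.card_fin] at h5
      omega)
    rwa [Finset.sum_singleton] at h3
  have hM : 1 ≤ M := by
    have h1 : cw ⟨0, by omega⟩ ≠ 0 := by
      intro h2
      apply hA0 ⟨0, by omega⟩
      rw [hA, hw, h2, zero_mul, zero_mul]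
    exact (one_le_hs h1).trans (hs_le (hcw _))
  have hVA : VA τ e x w = A := by
    funext σ
    unfold VA
    rw [hA]
  have h1 := bound hLOT hCUT hGCT hMASN (K := K) (r := r + N) τ e
    (fun i j => Sum.elim (fun t : Fin r => c i t) (fun _ => 0)
      ((finSumFinEquiv (m := r) (n := N)).symm j))
    cw (fun σ => finSumFinEquiv (Sum.inr σ)) hN (Nat.le_add_left _ _) D hp u t ν hν ht hyp q hq
    (fun j => Sum.elim (fun t : Fin r => a t) (fun σ => aw σ)
      ((finSumFinEquiv (m := r) (n := N)).symm j)) M hM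
    (by
      intro i j
      rcases (finSumFinEquiv (m := r) (n := N)).symm j with t | σ
      · simp only [Sum.elim_inl]
        exact hs_le (hc i t)
      · simp only [Sum.elim_inr]
        rw [hs_zero]
        linarith)
    (fun σ => hs_le (hcw σ)) x
    (by
      intro i
      rw [hx i, ← Equiv.sum_comp (finSumFinEquiv (m := r) (n := N)), Fintype.sum_sum_type]
      simp only [Equiv.symm_apply_apply, Sum.elim_inl, Sum.elim_inr, zero_mul,
        Finset.sum_const_zero, add_zero])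
    hx0 w
    (by
      intro σ
      simp only [Equiv.symm_apply_apply, Sum.elim_inr]
      exact hw σ)
    hD
    (by rw [hVA]; exact hsum)
    (by rw [hVA]; exact hsub)
    (by rw [hVA]; exact hgcd)
  rw [hVA] at h1
  exact h1

end Pool.Agent.P8H51.EB
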