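import Mathlib
import Pool.Agent.P8H51.EB.Bound
import Pool.Agent.P8H51.EA.Final

/-!
# Hyperbolic units as bases: exponents in `ℤ`

Adapted from `Pool/Agent/P8H51/EA/FinalU.lean`.
-/

set_option autoImplicit false

namespace Pool.Agent.P8H51.EB

open Finset NumberField Pool.Agent.H458.Sp Pool.Agent.P8H51.EA

theorem finalS (hLOT : S_LOT2) (hCUT : S_CUT2) (hGCT : S_GCTQ) (hMASN : S_MASN) (K : Type) [Field K] [NumberField K] (N p r D : ℕ) (M : ℝ)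
    (hN : 3 ≤ N) (hp : p ≤ D * (r + N)) (u : (𝓞 K)ˣ) (t : ℝ) (ν : ℕ) (hν : 1 ≤ ν) (ht : 1 < t)
    (hyp : Hyp2 (u : 𝓞 K) t (t ^ ν))
    (q : ℕ) (hq : 0 < q) (τ : Fin p → Fin N) (e : Fin p → ℕ)
    (hD : ∀ σ, ∑ i with τ i = σ, e i < D)
    (c : Fin p → Fin r → 𝓞 K) (a : Fin r → ℤ) (hc : ∀ i j (φ : K →+* ℂ), ‖φ (c i j)‖ ≤ M)
    (x : Fin p → 𝓞 K) (hx : ∀ i, x i = ∑ j, c i j * ((u ^ (a j) : (𝓞 K)ˣ) : 𝓞 K))
    (hx0 : ∀ i, x i ≠ 0)
    (cw : Fin N → 𝓞 K) (aw : Fin N → ℤ) (hcw : ∀ σ (φ : K →+* ℂ), ‖φ (cw σ)‖ ≤ M)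
    (w : Fin N → 𝓞 K) (hw : ∀ σ, w σ = cw σ * ((u ^ (aw σ) : (𝓞 K)ˣ) : 𝓞 K))
    (A : Fin N → 𝓞 K) (hA : ∀ σ, A σ = w σ * ∏ i with τ i = σ, x i ^ e i)
    (hsum : ∑ σ, A σ = 0)
    (hsub : ∀ s : Finset (Fin N), s.Nonempty → s ≠ Finset.univ → ∑ σ ∈ s, A σ ≠ 0)
    (hgcd : (q : 𝓞 K) ∈ Ideal.span (Set.range A)) :
    Real.log (∏ φ : K →+* ℂ, (⨆ σ, ‖em φ (A σ)‖)) ≤
      ((N - 1) * (N - 2) / 2 * max 1 (N - 3) : ℕ) *
        Real.log |(Algebra.norm ℤ (∏ i, x i) : ℝ)| +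
      (96 * (D * Module.finrank ℚ K * (r + N : ℕ) * (ν * (1 + Real.log (q * M))))) ^
        (2 * (r + N) ^ 3) := by
  classical
  have hA0 : ∀ σ, A σ ≠ 0 := by
    intro σ
    have h3 := hsub {σ} (Finset.singleton_nonempty σ) (by
      intro h4
      have h5 := congrArg Finset.card h4
      rw [Finset.card_singleton, Finset.card_univ, Fintype.card_fin] at h5
      omega)
    rwa [Finset.sum_singleton] at h3
  have hM : 1 ≤ M := by
    have h1 : cw ⟨0, by omega⟩ ≠ 0 := by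
      intro h2
      apply hA0 ⟨0, by omega⟩
      rw [hA, hw, h2, zero_mul, zero_mul]
    exact (one_le_hs h1).trans (hs_le (hcw _))
  -- a common shift
  obtain ⟨s, hs1, hs2⟩ : ∃ s : ℕ, (∀ j, 0 ≤ a j + s) ∧ ∀ σ, 0 ≤ aw σ + s := by
    refine ⟨∑ j, (a j).natAbs + ∑ σ, (aw σ).natAbs, fun j => ?_, fun σ => ?_⟩
    · have h1 : (a j).natAbs ≤ ∑ j, (a j).natAbs :=
        Finset.single_le_sum (f := fun j => (a j).natAbs) (fun _ _ => Nat.zero_le _)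
          (Finset.mem_univ j)
      omega
    · have h1 : (aw σ).natAbs ≤ ∑ σ, (aw σ).natAbs :=
        Finset.single_le_sum (f := fun σ => (aw σ).natAbs) (fun _ _ => Nat.zero_le _)
          (Finset.mem_univ σ)
      omega
  obtain ⟨S, hS⟩ : ∃ S : Fin N → ℕ, S = fun σ => ∑ i with τ i = σ, e i := ⟨_, rfl⟩
  have hSD : ∀ σ, S σ < D := fun σ => by rw [hS]; exact hD σ
  have hzp : ∀ (z : ℤ) (n : ℕ), 0 ≤ z + n →
      ((u ^ z : (𝓞 K)ˣ) : 𝓞 K) * (u : 𝓞 K) ^ n = (u : 𝓞 K) ^ (z + n).toNat := by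
    intro z n h
    rw [← Units.val_pow_eq_pow_val, ← Units.val_mul, ← Units.val_pow_eq_pow_val]
    congr 1
    rw [← zpow_natCast, ← zpow_natCast, ← zpow_add, Int.toNat_of_nonneg h]
  have hzp2 : ∀ (z : ℤ) (n : ℕ), 0 ≤ z + n → ∀ y : 𝓞 K,
      y * ((u ^ z : (𝓞 K)ˣ) : 𝓞 K) * (u : 𝓞 K) ^ n = y * (u : 𝓞 K) ^ (z + n).toNat := by
    intro z n h y
    rw [mul_assoc, hzp z n h]
  have hawσ : ∀ σ, 0 ≤ aw σ + ((s * (D - S σ) : ℕ) : ℤ) := by
    intro σ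
    have h1 := hs2 σ
    have h2 : s ≤ s * (D - S σ) := Nat.le_mul_of_pos_right _ (by have := hSD σ; omega)
    omega
  have hVA : ∀ σ, VA τ e (fun i => x i * (u : 𝓞 K) ^ s)
      (fun σ => w σ * (u : 𝓞 K) ^ (s * (D - S σ))) σ = (u : 𝓞 K) ^ (s * D) * A σ := by
    intro σ
    unfold VA
    rw [hA]
    simp only [mul_pow]
    rw [Finset.prod_mul_distrib]
    have h1 : ∏ i with τ i = σ, ((u : 𝓞 K) ^ s) ^ e i = (u : 𝓞 K) ^ (s * S σ) := by
      rw [Finset.prod_pow_eq_pow_sum, hS, pow_mul]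
    rw [h1]
    have h2 : s * D = s * (D - S σ) + s * S σ := by
      rw [← mul_add]
      congr 1
      have := hSD σ
      omega
    rw [h2, pow_add]
    ring
  have h1 := bound hLOT hCUT hGCT hMASN (K := K) (r := r + N) τ e
    (fun i j => Sum.elim (fun t : Fin r => c i t) (fun _ => 0)
      ((finSumFinEquiv (m := r) (n := N)).symm j))
    cw (fun σ => finSumFinEquiv (Sum.inr σ)) hN (Nat.le_add_left _ _) D hp (u : 𝓞 K)
    t ν hν ht hyp q hq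
    (fun j => Sum.elim (fun t : Fin r => (a t + s).toNat)
      (fun σ => (aw σ + ((s * (D - S σ) : ℕ) : ℤ)).toNat)
      ((finSumFinEquiv (m := r) (n := N)).symm j)) M hM
    (by
      intro i j
      rcases (finSumFinEquiv (m := r) (n := N)).symm j with t | σ
      · simp only [Sum.elim_inl]
        exact hs_le (hc i t)
      · simp only [Sum.elim_inr]
        rw [hs_zero]
        linarith)
    (fun σ => hs_le (hcw σ)) (fun i => x i * (u : 𝓞 K) ^ s)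
    (by
      intro i
      rw [hx i, ← Equiv.sum_comp (finSumFinEquiv (m := r) (n := N)), Fintype.sum_sum_type]
      simp only [Equiv.symm_apply_apply, Sum.elim_inl, Sum.elim_inr, zero_mul,
        Finset.sum_const_zero, add_zero]
      rw [Finset.sum_mul]
      exact Finset.sum_congr rfl fun j _ => hzp2 _ _ (hs1 j) _)
    (fun i => mul_ne_zero (hx0 i) (pow_ne_zero _ u.ne_zero))
    (fun σ => w σ * (u : 𝓞 K) ^ (s * (D - S σ)))
    (by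
      intro σ
      simp only [Equiv.symm_apply_apply, Sum.elim_inr]
      rw [hw]
      exact hzp2 _ _ (hawσ σ) _)
    hD
    (by
      simp only [hVA]
      rw [← Finset.mul_sum, hsum, mul_zero])
    (by
      intro t ht1 ht2
      simp only [hVA]
      rw [← Finset.mul_sum]
      exact mul_ne_zero (pow_ne_zero _ u.ne_zero) (hsub t ht1 ht2))
    (by
      rw [Ideal.mem_span_range_iff_exists_fun] at hgcd ⊢
      obtain ⟨cc, hcc⟩ := hgcd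
      refine ⟨fun σ => cc σ * ((u⁻¹ : (𝓞 K)ˣ) : 𝓞 K) ^ (s * D), ?_⟩
      rw [← hcc]
      refine Finset.sum_congr rfl fun σ _ => ?_
      rw [hVA]
      have h2 : ((u⁻¹ : (𝓞 K)ˣ) : 𝓞 K) ^ (s * D) * (u : 𝓞 K) ^ (s * D) = 1 := by
        rw [← mul_pow, Units.inv_mul, one_pow]
      calc cc σ * ((u⁻¹ : (𝓞 K)ˣ) : 𝓞 K) ^ (s * D) * ((u : 𝓞 K) ^ (s * D) * A σ) =
          cc σ * (((u⁻¹ : (𝓞 K)ˣ) : 𝓞 K) ^ (s * D) * (u : 𝓞 K) ^ (s * D)) * A σ := by ring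
        _ = cc σ * A σ := by rw [h2, mul_one])
  have h2 : |(Algebra.norm ℤ (∏ i, x i * (u : 𝓞 K) ^ s) : ℝ)| =
      |(Algebra.norm ℤ (∏ i, x i) : ℝ)| := by
    rw [Finset.prod_mul_distrib, Finset.prod_const, ← pow_mul, map_mul, map_pow]
    have h3 := Int.isUnit_iff_abs_eq.1 (u.isUnit.map (Algebra.norm ℤ))
    have h4 : |(Algebra.norm ℤ (u : 𝓞 K) : ℝ)| = 1 := by exact_mod_cast h3
    push_cast
    rw [abs_mul, abs_pow, h4, one_pow, mul_one]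
  have h3 : ∏ φ : K →+* ℂ, (⨆ σ, ‖em φ (VA τ e (fun i => x i * (u : 𝓞 K) ^ s)
      (fun σ => w σ * (u : 𝓞 K) ^ (s * (D - S σ))) σ)‖) =
      ∏ φ : K →+* ℂ, (⨆ σ, ‖em φ (A σ)‖) := by
    have h4 : ∀ φ : K →+* ℂ, (⨆ σ, ‖em φ (VA τ e (fun i => x i * (u : 𝓞 K) ^ s)
        (fun σ => w σ * (u : 𝓞 K) ^ (s * (D - S σ))) σ)‖) =
        ‖em φ (u : 𝓞 K)‖ ^ (s * D) * (⨆ σ, ‖em φ (A σ)‖) := by
      intro φ
      rw [Real.mul_iSup_of_nonneg (by positivity)]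
      congr 1
      funext σ
      rw [hVA, map_mul, map_pow, norm_mul, norm_pow]
    simp only [h4]
    rw [Finset.prod_mul_distrib, Finset.prod_pow, unit_prod u.isUnit, one_pow, one_mul]
  rw [h2, h3] at h1
  exact h1

end Pool.Agent.P8H51.EB
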